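import Pool.Agent.Helper98_CC.Final

/-!
Alperin's weight conjecture in alternating sum form at a prime `ℓ`, for the groups with
`O_ℓ(G) = 1` and all their blocks of positive defect, is equivalent to a family of congruences
between numbers of solutions of commutator equations in finite groups, and to the divisibility of
the sums for large groups by one fixed number `k > 1`.
-/

open scoped BigOperators

noncomputable section

namespace Pool.Agent.Results.MP_6a3f1a_al.CommutatorCriterion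

open Pool.Agent.Helper51_AWC

/-- `O_ℓ(G) = 1`, `χ` is an irreducible character of `G`, and the defect groups of its block are
not trivial. -/
def CoreFree (ℓ : ℕ) (M : Ideal (integralClosure ℤ ℂ)) (G : Type) [Group G] (χ : G → ℂ) : Prop :=
  opCore ℓ G = ⊥ ∧ χ ∈ Irr G ∧ LargeDefect ℓ M χ

/-- The number of pairs `(x, y)` of elements of the subgroup `H` with `x y x⁻¹ y⁻¹ = c`. -/
def comm2 {G : Type} [Group G] (H : Subgroup G) (c : G) : ℕ :=
  Nat.card {p : G × G // p.1 ∈ H ∧ p.2 ∈ H ∧ p.1 * p.2 * p.1⁻¹ * p.2⁻¹ = c}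

/-- The number of `g`-tuples of pairs `(x_i, y_i)` of elements of `G` with
`[x_1, y_1] [x_2, y_2] ... [x_g, y_g] = c`, where `[x, y] = x y x⁻¹ y⁻¹`. -/
def commg {G : Type} [Group G] (g : ℕ) (c : G) : ℕ :=
  Nat.card {p : Fin g → G × G //
    (List.ofFn fun i => (p i).1 * (p i).2 * (p i).1⁻¹ * (p i).2⁻¹).prod = c}

/-- The chains of nontrivial `ℓ`-subgroups of `G`: the finite sets of nontrivial `ℓ`-subgroups
which are totally ordered by inclusion (also the empty set). -/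
def pChains (ℓ : ℕ) (G : Type) [Group G] : Set (Finset (Subgroup G)) :=
  {d | (∀ D ∈ d, D ≠ ⊥ ∧ IsPGroup ℓ D) ∧ IsChain (· ≤ ·) (d : Set (Subgroup G))}

/-- `∑_d (-1)^|d| #{(x, y) ∈ G_d × G_d : [x, y] = c}`, the sum over all chains `d` of nontrivial
`ℓ`-subgroups, `G_d` the intersection of the normalisers of the members of `d`. -/
def torusSum (ℓ : ℕ) {G : Type} [Group G] (c : G) : ℤ :=
  ∑ᶠ (d : Finset (Subgroup G)) (_ : d ∈ pChains ℓ G),
    (-1) ^ d.card * (comm2 (⨅ D ∈ d, Subgroup.normalizer (D : Set G)) c : ℤ)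

/-- The congruence of the criterion for `c ∈ G` :
`torusSum ℓ c ≡ commg g c` modulo `ℓ |C_G(c)|`. -/
def CommCong (ℓ g : ℕ) {G : Type} [Group G] (c : G) : Prop :=
  ((ℓ * Nat.card (Subgroup.centralizer {c} : Subgroup G) : ℕ) : ℤ) ∣
    torusSum ℓ c - (commg g c : ℤ)

/-- For every prime `ℓ`, every `k > 1` and every `g > 1` with `ℓ - 1 ∣ 2g - 2` the following are
equivalent: (1) all sums `S(G, B)` with `O_ℓ(G) = 1` and `B` of positive defect vanish; (2) `k`
divides `S(G, B)` for all such `(G, B)` with `|G|` large; (3) for every `ε > 0` one has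
`S(G, B) ≤ |G|^ε` for all such `(G, B)` with `|G|` large; (4) the commutator congruence holds for
all elements `c` of all finite groups `G`; (5) it holds for all elements of all finite groups
whose order is large. -/
theorem result :
    ∀ ℓ : ℕ, ℓ.Prime → ∀ M : Ideal (integralClosure ℤ ℂ), M.IsMaximal →
      (ℓ : integralClosure ℤ ℂ) ∈ M → ∀ k g : ℕ, 1 < k → 1 < g → ℓ - 1 ∣ 2 * g - 2 →
      List.TFAE [
        ∀ (G : Type) [Group G] [Finite G] (χ : G → ℂ), CoreFree ℓ M G χ → altSum ℓ M χ = 0,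
        ∃ N : ℕ, ∀ (G : Type) [Group G] [Finite G] (χ : G → ℂ),
          CoreFree ℓ M G χ → N ≤ Nat.card G → (k : ℤ) ∣ altSum ℓ M χ,
        ∀ ε : ℝ, 0 < ε → ∃ N : ℕ, ∀ (G : Type) [Group G] [Finite G] (χ : G → ℂ),
          CoreFree ℓ M G χ → N ≤ Nat.card G → (altSum ℓ M χ : ℝ) ≤ (Nat.card G : ℝ) ^ ε,
        ∀ (G : Type) [Group G] [Finite G] (c : G), CommCong ℓ g c,
        ∃ N : ℕ, ∀ (G : Type) [Group G] [Finite G], N ≤ Nat.card G →
          ∀ c : G, CommCong ℓ g c] := by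
  intro ℓ hp M hM hℓ k g hk hg hdvd
  have hfact : Fact ℓ.Prime := ⟨hp⟩
  tfae_have 1 → 2 := by
    intro h
    refine ⟨0, fun G _ _ χ hχ _ => ?_⟩
    rw [h G χ hχ]
    exact dvd_zero _
  tfae_have 1 → 3 := by
    intro h ε _
    refine ⟨0, fun G _ _ χ hχ _ => ?_⟩
    rw [h G χ hχ]
    simp only [Int.cast_zero]
    positivity
  tfae_have 1 → 4 := by
    intro h G _ _ c
    refine (Pool.Agent.Helper98_CC.mainAll ℓ M hℓ g hg hdvd).1 ?_ G c
    intro G _ _ hop χ hχ hL
    exact h G χ ⟨hop, hχ, hL⟩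
  tfae_have 4 → 5 := by
    intro h
    exact ⟨0, fun G _ _ _ c => h G c⟩
  tfae_have 5 → 1 := by
    rintro ⟨N, h⟩
    refine Pool.Agent.Helper98_CC.vanish_of_ell hℓ ⟨N, ?_⟩
    intro G _ _ χ hχ hN
    exact Pool.Agent.Helper98_CC.dvd_of_cong hℓ hχ.1 hg hdvd (fun c => h G hN c) hχ.2.1 hχ.2.2
  tfae_have 2 → 1 := by
    intro h
    by_cases hm : ∃ m : ℕ, m.Prime ∧ m ≠ ℓ ∧ m ∣ k
    · exact ((Pool.Agent.Helper98_CC.Div.criterion ℓ hp M hM hℓ k hm).out 0 1).2 h
    · have hlk : ℓ ∣ k := by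
        by_contra hcon
        obtain ⟨m, hm1, hm2⟩ := Nat.exists_prime_and_dvd (by omega : k ≠ 1)
        apply hm
        refine ⟨m, hm1, ?_, hm2⟩
        rintro rfl
        exact hcon hm2
      obtain ⟨N, h⟩ := h
      refine Pool.Agent.Helper98_CC.vanish_of_ell hℓ ⟨N, ?_⟩
      intro G _ _ χ hχ hN
      exact (Int.natCast_dvd_natCast.2 hlk).trans (h G χ hχ hN)
  tfae_have 3 → 1 := by
    intro h
    obtain ⟨m, hm1, hm2⟩ : ∃ m : ℕ, m.Prime ∧ m ≠ ℓ := by
      by_cases h2 : ℓ = 2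
      · exact ⟨3, Nat.prime_three, by omega⟩
      · exact ⟨2, Nat.prime_two, fun h => h2 h.symm⟩
    exact ((Pool.Agent.Helper98_CC.Div.criterion ℓ hp M hM hℓ m ⟨m, hm1, hm2, dvd_rfl⟩).out 0 2).2 h
  tfae_finish

end Pool.Agent.Results.MP_6a3f1a_al.CommutatorCriterion
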