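import Pool.Agent.Helper66_D2.AsmD2

/-!
Alperin's weight conjecture in alternating-sum form for the blocks that cover a block of a normal
subgroup with cyclic defect groups.
-/

open scoped BigOperators

noncomputable section

namespace Pool.Agent.Results.MP_6a3f1a_al.CyclicDefect

open Pool.Agent.Helper51_AWC Pool.Agent.PP

/-- Let `N` be a normal subgroup of the finite group `G` with `O_ℓ(G) ≤ Z(G)`, let `χ ∈ Irr(G)` lie
over `ψ ∈ Irr(N)`, and let the defect groups of the block of `ψ` be larger than `O_ℓ(N)`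
(`LargeDefect`) and cyclic modulo `O_ℓ(N)`: the central character of `ψ` is not in `M` at the
class of some `x ∈ N`, and a Sylow `ℓ`-subgroup `P` of the centraliser of `x` is generated by
`O_ℓ(N)` and one element. Then the alternating sum of the block of `χ` is zero. -/
theorem result :
    ∀ (ℓ : ℕ) [Fact ℓ.Prime] (M : Ideal (integralClosure ℤ ℂ)) [M.IsMaximal],
      (ℓ : integralClosure ℤ ℂ) ∈ M → ∀ (G : Type) [Group G] [Finite G],
      opCore ℓ G ≤ Subgroup.center G → ∀ N : Subgroup G, N.Normal →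
      ∀ χ ∈ Irr G, ∀ ψ ∈ Irr N, (∑ᶠ n : N, χ n * starRingEnd ℂ (ψ n)) ≠ 0 →
        LargeDefect ℓ M ψ →
        (∃ (x u : N) (P : Subgroup N), ¬ Cong M (omega (MonoidHom.id N) ψ x) 0 ∧
          P ≤ Subgroup.centralizer ({x} : Set N) ∧ IsPGroup ℓ P ∧
          ¬ ℓ ∣ P.relIndex (Subgroup.centralizer ({x} : Set N)) ∧
          P = opCore ℓ N ⊔ Subgroup.zpowers u) →
        altSum ℓ M χ = 0 := by
  intro ℓ hℓ M _ hM G _ _ hc N hN χ hχ ψ hψ hχψ hL hS
  obtain ⟨x, u, P, hx, hP⟩ := hS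
  refine CD2.Asm.fd2_ ℓ hℓ.out M hM G hc N hN χ hχ ψ hψ hχψ hL ⟨x, u, P, fun h0 => hx ?_, hP⟩
  have hint : IsIntegral ℤ (omega (MonoidHom.id N) ψ x) :=
    Pool.Agent.Helper51_AWC.omega_integral _ hψ x
  rw [← Pool.Agent.Helper79_WRA.red_eq_iff hint isIntegral_zero, h0,
    Pool.Agent.Helper79_WRA.red_zero]

end Pool.Agent.Results.MP_6a3f1a_al.CyclicDefect
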