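import Pool.Agent.Helper66_KF.AsmKF
import Pool.Agent.Helper66_DF.DblE
import Pool.Agent.Helper66_DF.Final
import Pool.Agent.Helper46_DF.Fen

/-!
Alperin's weight conjecture in alternating-sum form: reduction to the nearly simple groups, relative
to a normal subgroup, with control of the defect groups.
-/

open scoped BigOperators

noncomputable section

namespace Pool.Agent.Results.MP_6a3f1a_al.DefectControl

open Pool.Agent.Helper51_AWC Pool.Agent.PP

/-- Let `𝒟` be a class of groups which contains with a group `R` every group that embeds into `R`.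
Let `N` be a normal subgroup of the finite group `G` with `O_ℓ(G) ≤ Z(G)`, let `χ ∈ Irr(G)` lie
over `ψ ∈ Irr(N)`, and let the defect groups of the block of `ψ` be larger than `O_ℓ(N)`
(`LargeDefect`), with quotient by `O_ℓ(N)` in `𝒟`: the central character of `ψ` is not in `M` at the
class of some `x ∈ N`, and a Sylow `ℓ`-subgroup `P` of the centraliser of `x` has a homomorphism to a
group in `𝒟` with kernel `O_ℓ(N)`.  If the alternating sum of the block of `χ` is not zero, then
there are a finite group `D` with `O_ℓ(D) = 1` and `Z(D) ≤ [D, D]` and a character `ϑ ∈ Irr(D)`,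
faithful on `Z(D)`, in a block with nontrivial defect groups (`LargeDefect`) in `𝒟` (the central
character of `ϑ` is not in `M` at the class of some `y`, and the Sylow `ℓ`-subgroups of the
centraliser of `y` are in `𝒟`), such that the alternating sum of the block of `ϑ` is not zero,
`D / Z(D)` is involved in `G` and almost simple, its outer part is a nilpotent group of order prime
to `ℓ` generated by two elements, and its socle `S` is involved in `N` and has order divisible by
`ℓ`. -/
theorem result :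
    ∀ (ℓ : ℕ) [Fact ℓ.Prime] (M : Ideal (integralClosure ℤ ℂ)) [M.IsMaximal],
      (ℓ : integralClosure ℤ ℂ) ∈ M → ∀ 𝒟 : (Q : Type) → [Group Q] → Prop,
      (∀ (Q R : Type) [Group Q] [Group R] (j : Q →* R), Function.Injective j → 𝒟 R → 𝒟 Q) →
      ∀ (G : Type) [Group G] [Finite G],
      opCore ℓ G ≤ Subgroup.center G → ∀ N : Subgroup G, N.Normal →
      ∀ χ ∈ Irr G, ∀ ψ ∈ Irr N, (∑ᶠ n : N, χ n * starRingEnd ℂ (ψ n)) ≠ 0 →
        LargeDefect ℓ M ψ →
        (∃ (x : N) (P : Subgroup N), ¬ Cong M (omega (MonoidHom.id N) ψ x) 0 ∧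
          P ≤ Subgroup.centralizer ({x} : Set N) ∧ IsPGroup ℓ P ∧
          ¬ ℓ ∣ P.relIndex (Subgroup.centralizer ({x} : Set N)) ∧
          ∃ (P₀ : Type) (_ : Group P₀) (f : P →* P₀), 𝒟 P₀ ∧
            ∀ u : P, f u = 1 ↔ (u : N) ∈ opCore ℓ N) →
        altSum ℓ M χ ≠ 0 →
        ∃ (S : Type) (_ : Group S) (_ : Finite S) (D : Type) (_ : Group D) (_ : Finite D),
          NonabSimple S ∧ ℓ ∣ Nat.card S ∧ Involves N S ∧
            opCore ℓ D = ⊥ ∧ Subgroup.center D ≤ commutator D ∧ NearlySimpleF ℓ D S ∧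
            Involves G (D ⧸ Subgroup.center D) ∧
            ∃ ϑ ∈ Irr D, (∀ z ∈ Subgroup.center D, ϑ z = ϑ 1 → z = 1) ∧
              altSum ℓ M ϑ ≠ 0 ∧ LargeDefect ℓ M ϑ ∧
              ∃ y : D, ¬ Cong M (omega (MonoidHom.id D) ϑ y) 0 ∧
                ∃ P : Sylow ℓ (Subgroup.centralizer ({y} : Set D)), 𝒟 P := by
  intro ℓ hℓ M _ hM 𝒟 h𝒟 G _ _ hc N hN χ hχ ψ hψ hχψ hL hS h0
  obtain ⟨x, P, hx, hP⟩ := hS
  by_contra hcon
  apply h0
  refine DF.finE (DF.relQE_ DF.dfq_ DF.H43.covE DF.dbl_) KF.fst_ DF.H46.fen ℓ hℓ.out M hM 𝒟 h𝒟 G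
    hc N hN ?_ χ hχ ψ hψ hχψ hL ⟨x, P, fun h1 => hx ?_, hP⟩
  · intro S _ _ hS1 hS2 hS3 D _ _ hD hZ hns hinv ϑ hϑ hf hLD hdf
    by_contra h2
    exact hcon ⟨S, inferInstance, inferInstance, D, inferInstance, inferInstance, hS1, hS2, hS3,
      hD, hZ, hns, hinv, ϑ, hϑ, hf, h2, hLD, DF.DfIn.sylow h𝒟 hD hdf⟩
  · have hint : IsIntegral ℤ (omega (MonoidHom.id N) ψ x) :=
      Pool.Agent.Helper51_AWC.omega_integral _ hψ x
    rw [← Pool.Agent.Helper79_WRA.red_eq_iff hint isIntegral_zero, h1,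
      Pool.Agent.Helper79_WRA.red_zero]

end Pool.Agent.Results.MP_6a3f1a_al.DefectControl
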