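import Pool.Agent.Helper66_KF.AsmKF
import Pool.Agent.Helper66_DF.DblE

/-!
Alperin's weight conjecture in alternating-sum form for the `2`-blocks that cover a block of a
normal subgroup with Klein four defect groups.
-/

open scoped BigOperators

noncomputable section

namespace Pool.Agent.Results.MP_6a3f1a_al.KleinFourDefect

open Pool.Agent.Helper51_AWC Pool.Agent.PP

/-- Let `N` be a normal subgroup of the finite group `G` with `O_2(G) ≤ Z(G)`, let `χ ∈ Irr(G)` lie
over `ψ ∈ Irr(N)`, and let the defect groups of the block of `ψ` be larger than `O_2(N)`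
(`LargeDefect`), with a quotient by `O_2(N)` that embeds into the Klein four group: the central
character of `ψ` is not in `M` at the class of some `x ∈ N`, and a Sylow `2`-subgroup `P` of the
centraliser of `x` has a homomorphism to `C₂ × C₂` with kernel `O_2(N)`.  Then the alternating sum of
the block of `χ` is zero. -/
theorem result :
    ∀ (M : Ideal (integralClosure ℤ ℂ)) [M.IsMaximal],
      (2 : integralClosure ℤ ℂ) ∈ M → ∀ (G : Type) [Group G] [Finite G],
      opCore 2 G ≤ Subgroup.center G → ∀ N : Subgroup G, N.Normal →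
      ∀ χ ∈ Irr G, ∀ ψ ∈ Irr N, (∑ᶠ n : N, χ n * starRingEnd ℂ (ψ n)) ≠ 0 →
        LargeDefect 2 M ψ →
        (∃ (x : N) (P : Subgroup N), ¬ Cong M (omega (MonoidHom.id N) ψ x) 0 ∧
          P ≤ Subgroup.centralizer ({x} : Set N) ∧ IsPGroup 2 P ∧
          ¬ 2 ∣ P.relIndex (Subgroup.centralizer ({x} : Set N)) ∧
          ∃ f : P →* Multiplicative (ZMod 2) × Multiplicative (ZMod 2),
            ∀ u : P, f u = 1 ↔ (u : N) ∈ opCore 2 N) →
        altSum 2 M χ = 0 :=
  KF.finKF (DF.relQE_ DF.dfq_ DF.H43.covE DF.dbl_) KF.fst_ KF.gq4_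

end Pool.Agent.Results.MP_6a3f1a_al.KleinFourDefect
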