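import Pool.Agent.ATW.AsmT
import Pool.Agent.ATW.Rank2b
import Pool.Agent.Helper18_X2.AsmD
import Pool.Agent.Helper36_X1.AsmB
import Pool.Agent.Helper66_X4.Fin
import Pool.Agent.Helper98_ASE.Asm

/-!
Alperin's weight conjecture in alternating-sum form: reduction to the blocks, with defect groups that
are not abelian of rank at most two, of the groups that are almost simple modulo their centre, with a
simple group whose Sylow `ℓ`-subgroups are not abelian of rank at most two and which is not of Lie
type in characteristic `ℓ`, in a form relative to a normal subgroup `N` in which the components of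
`N` count only through their own simple quotients, and its unconditional part.
-/

open scoped BigOperators

noncomputable section

namespace Pool.Agent.Results.MP_6a3f1a_al.ReductionTwo

open Pool.Agent.Helper51_AWC Pool.Agent.PP Pool.Agent.PP.X2 Pool.Agent.PP.X4

/-- Let `𝒜` be a class of simple groups.  A simple group is admissible (`AdmR ℓ 𝒜`) if its order is
prime to `ℓ`, or it is in `GoodR ℓ` or in `𝒜`.  Let `E ≤ N` be normal subgroups of the finite group
`G` with `O_ℓ(G) ≤ Z(G)`, let `E` be a product of commuting quasisimple groups over admissible simple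
groups, let all nonabelian simple groups involved in `N / E` be admissible, and let every `S` in `𝒜`
of order divisible by `ℓ` that is involved in `N` and not in `GoodR ℓ` have the property `FixIn`.
Let `χ ∈ Irr(G)` lie over `ψ ∈ Irr(N)` such that the block of `ψ` has defect groups larger than
`O_ℓ(N)`.  If the alternating sum of the block of `χ` is not zero, then there are a finite group `D`
with `O_ℓ(D) = 1` and `Z(D) ≤ [D, D]` and a character `ϑ ∈ Irr(D)` faithful on `Z(D)` in a block
whose defect groups are nonabelian or need three generators (`RkSyl`: the Sylow `ℓ`-subgroups of the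
centraliser of `x` are not abelian with two generators for any `x` at whose class the central
character of `ϑ` is not in `M`), such that the alternating sum of the block of `ϑ` is not zero,
`D / Z(D)` is involved in `G` and almost simple, its outer part is a nilpotent group of order prime to
`ℓ` generated by two elements, and its socle `S` is in `𝒜` and involved in `N`, has Sylow
`ℓ`-subgroups that are nonabelian or need three generators, is not of Lie type in characteristic `ℓ`
(in particular not `PSL_n(K)` for a finite field `K` of characteristic `ℓ`) and is not isomorphic to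
`PSL_2(K)` for a finite field `K` (of characteristic two if `ℓ = 2`). -/
theorem result :
    ∀ (ℓ : ℕ) [Fact ℓ.Prime] (M : Ideal (integralClosure ℤ ℂ)) [M.IsMaximal],
      (ℓ : integralClosure ℤ ℂ) ∈ M → ∀ (𝒜 : Fam) (G : Type) [Group G] [Finite G],
      opCore ℓ G ≤ Subgroup.center G → ∀ (N E : Subgroup G) [N.Normal] [E.Normal], E ≤ N →
      QProd (AdmR ℓ 𝒜) E → AllIn (AdmR ℓ 𝒜) (N ⧸ E.subgroupOf N) →
      (∀ (S : Type) [Group S] [Finite S], NonabSimple S → ℓ ∣ Nat.card S → Involves N S → 𝒜 S →
        ¬ GoodR ℓ S → FixIn ℓ (AdmR ℓ 𝒜) S) →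
      ∀ χ ∈ Irr G, ∀ ψ ∈ Irr N, (∑ᶠ n : N, χ n * starRingEnd ℂ (ψ n)) ≠ 0 →
        LargeDefect ℓ M ψ → altSum ℓ M χ ≠ 0 →
        ∃ (S : Type) (_ : Group S) (_ : Finite S) (D : Type) (_ : Group D) (_ : Finite D),
          NonabSimple S ∧ 𝒜 S ∧ Involves N S ∧ ¬ RkSyl ℓ S ∧ ¬ X1.LieType ℓ S ∧
            (∀ (n : ℕ) (K : Type) [Field K] [Finite K], (ℓ : K) = 0 →
              IsEmpty (S ≃* Matrix.ProjectiveSpecialLinearGroup (Fin n) K)) ∧
            (∀ (K : Type) [Field K] [Finite K], (ℓ = 2 → (2 : K) = 0) →
              IsEmpty (S ≃* Matrix.ProjectiveSpecialLinearGroup (Fin 2) K)) ∧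
            opCore ℓ D = ⊥ ∧ Subgroup.center D ≤ commutator D ∧ NearlySimpleF ℓ D S ∧
            Involves G (D ⧸ Subgroup.center D) ∧
            ∃ ϑ ∈ Irr D, (∀ z ∈ Subgroup.center D, ϑ z = ϑ 1 → z = 1) ∧
              (∀ x : D, ¬ Cong M (omega (MonoidHom.id D) ϑ x) 0 →
                ¬ RkSyl ℓ (Subgroup.centralizer ({x} : Set D))) ∧
              altSum ℓ M ϑ ≠ 0 := by
  intro ℓ _ M _ hM 𝒜 G _ _ hc N E _ _ hEN hE1 hNE hfix χ hχ ψ hψ hχψ hL h0
  exact finR (TW.fin2 (fun ℓ => TW.tt_ ℓ) SE.s2f_) A.finC0 X1.nsx_ X1.quo_ X1.sln_ ℓ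
    (clfR A.psq_ H71.psb ℓ) M hM 𝒜 G hc N E hEN hE1 hNE hfix χ hχ ψ hψ hχψ hL h0

end Pool.Agent.Results.MP_6a3f1a_al.ReductionTwo
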