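import Pool.Agent.Helper66_K9.Asm

/-!
Alperin's weight conjecture in alternating-sum form for the `ℓ`-blocks, `ℓ` being `2` or `3`, that
cover a block of a normal subgroup whose defect groups have order at most `ℓ²` modulo the largest
normal `ℓ`-subgroup.
-/

open scoped BigOperators

noncomputable section

namespace Pool.Agent.Results.MP_6a3f1a_al.SmallDefect

open Pool.Agent.Helper51_AWC Pool.Agent.PP

/-- Let `ℓ` be `2` or `3`, let `N` be a normal subgroup of the finite group `G` with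
`O_ℓ(G) ≤ Z(G)`, let `χ ∈ Irr(G)` lie over `ψ ∈ Irr(N)`, and let the defect groups of the block of
`ψ` be larger than `O_ℓ(N)` (`LargeDefect`), with index at most `ℓ²` over `O_ℓ(N)`: the central
character of `ψ` is not in `M` at the class of some `x ∈ N`, and `|P : O_ℓ(N)| ≤ ℓ²` for a Sylow
`ℓ`-subgroup `P` of the centraliser of `x`.  Then the alternating sum of the block of `χ` is zero. -/
theorem result :
    ∀ (ℓ : ℕ), ℓ = 2 ∨ ℓ = 3 → ∀ (M : Ideal (integralClosure ℤ ℂ)) [M.IsMaximal],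
      (ℓ : integralClosure ℤ ℂ) ∈ M → ∀ (G : Type) [Group G] [Finite G],
      opCore ℓ G ≤ Subgroup.center G → ∀ N : Subgroup G, N.Normal →
      ∀ χ ∈ Irr G, ∀ ψ ∈ Irr N, (∑ᶠ n : N, χ n * starRingEnd ℂ (ψ n)) ≠ 0 →
        LargeDefect ℓ M ψ →
        (∃ (x : N) (P : Subgroup N), ¬ Cong M (omega (MonoidHom.id N) ψ x) 0 ∧
          P ≤ Subgroup.centralizer ({x} : Set N) ∧ IsPGroup ℓ P ∧
          ¬ ℓ ∣ P.relIndex (Subgroup.centralizer ({x} : Set N)) ∧
          (opCore ℓ N).relIndex P ≤ ℓ ^ 2) →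
        altSum ℓ M χ = 0 :=
  K9.H57.finS (DF.relQE_ DF.dfq_ DF.H43.covE DF.dbl_) KF.fst_ KF.gq4_ K9.gq9_ K9.H69.fmg
    CD2.Asm.d2a_ H9.addStmt

end Pool.Agent.Results.MP_6a3f1a_al.SmallDefect
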