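import Pool.Agent.Helper79_WRA.Final

/-!
Alperin's weight conjecture in alternating-sum form for wreath products `G wr L`.
-/

open scoped BigOperators

noncomputable section

namespace Pool.Agent.Results.MP_6a3f1a_al.WreathProducts

open Pool.Agent.Helper51_AWC Pool.Agent.Helper79_WRA

/-- Let `G ≠ 1` be a finite group with `O_ℓ(G) = 1` for which Q1 holds at `ℓ`, that is, all the
alternating sums of the blocks of positive defect vanish. Then for every finite group `L` acting
faithfully on a finite set `Ω` the wreath product `G wr L` has `O_ℓ = 1`, and Q1 holds for it if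
and only if it holds for the stabiliser in `L` of every family `Ω → {defect zero characters of G}`,
whenever this stabiliser has `O_ℓ = 1`. -/
theorem result :
    ∀ (ℓ : ℕ) [Fact ℓ.Prime] (M : Ideal (integralClosure ℤ ℂ)) [M.IsMaximal],
      (ℓ : integralClosure ℤ ℂ) ∈ M → ∀ (G : Type) [Group G] [Finite G], Nontrivial G →
      opCore ℓ G = ⊥ → Q1For ℓ M G →
      ∀ (Ω L : Type) [Finite Ω] [Group L] [Finite L] [MulAction L Ω] [FaithfulSMul L Ω],
      opCore ℓ (Wreath G Ω L) = ⊥ ∧
      (Q1For ℓ M (Wreath G Ω L) ↔
        ∀ β : Ω → G → ℂ, (∀ i, β i ∈ DZ ℓ M G) → opCore ℓ (famStab L β) = ⊥ →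
          Q1For ℓ M (famStab L β)) := mainB

end Pool.Agent.Results.MP_6a3f1a_al.WreathProducts
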